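import Pool.Agent.H429.MZQ.Fin6

/-!
# The dimension conjecture fails over `ℚ`, in all dimensions `n = 3 m`, `m` odd

Let `K = ℚ(θ, l)`, `θ⁷ - 8θ⁵ - 2θ⁴ + 16θ³ + 6θ² - 6θ - 2 = 0`, `l³ + l² - 24l - 27 = 0`, a Galois extension of `ℚ` of
degree 21.  Over `F = ℚ` and over every totally real field `F` with `F ∩ K = ℚ` the formula fails in dimension 3 with
`k = 𝔽₂` for all finite `S` above 438, and in all dimensions `3 m`, `m` odd, for all sufficiently large `S`.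
-/

set_option autoImplicit false

namespace Pool.Agent.Results.MP_aa8fd2_nt.FailsOverQ

open NumberField IsDedekindDomain Pool.Agent.H429.MZQ

theorem result :
    ∃ (Ω : Type) (_ : Field Ω) (_ : Algebra ℚ Ω) (_ : IsAlgClosure ℚ Ω),
      Fails438 ℚ Ω ∧ (∀ m : ℕ, Odd m → FailsIn ℚ Ω (3 * m) 5) ∧
      ∃ (K : IntermediateField ℚ Ω) (θ l : Ω),
        θ ^ 7 - 8 * θ ^ 5 - 2 * θ ^ 4 + 16 * θ ^ 3 + 6 * θ ^ 2 - 6 * θ - 2 = 0 ∧
        l ^ 3 + l ^ 2 - 24 * l - 27 = 0 ∧ K = IntermediateField.adjoin ℚ {θ, l} ∧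
        IsGalois ℚ K ∧ Module.finrank ℚ K = 21 ∧
        ∀ (F : IntermediateField ℚ Ω) [NumberField F],
          (Nat.Coprime (Module.finrank ℚ F) 21 → F ⊓ K = ⊥) ∧
          (TotR F → F ⊓ K = ⊥ → Fails438 F Ω ∧ ∀ m : ℕ, Odd m → FailsIn F Ω (3 * m) 5) := by
  haveI : Fact (Nat.Prime 2) := ⟨Nat.prime_two⟩
  obtain ⟨K, i1, i2, θ, l, r, hKF, hK⟩ := kdata
  obtain ⟨κ⟩ := (all_QE K r hK).2
  have hcl : IsAlgClosure ℚ MZ.Om := RESQN.alg_cloQ
  obtain ⟨M, θ', l', h1, h2, h3, h4, h5, h6⟩ := field K θ l hKF κ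
  have hQ := coreQB K r hK κ
  refine ⟨MZ.Om, inferInstance, inferInstance, hcl, hQ, fun m hm =>
    all3 ℚ MZ.Om realQ hQ m hm,
    M, θ', l', h1, h2, h3, h4, h5, fun F _ => ⟨fun hcop => ?_, fun hreal hdis => ?_⟩⟩
  · have hfM : FiniteDimensional ℚ M := Module.finite_of_finrank_pos (by rw [h5]; norm_num)
    have hfF : FiniteDimensional ℚ F := inferInstance
    have hd1 : Module.finrank ℚ (F ⊓ M : IntermediateField ℚ MZ.Om) ∣ Module.finrank ℚ F :=
      IntermediateField.finrank_dvd_of_le_right inf_le_left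
    have hd2 : Module.finrank ℚ (F ⊓ M : IntermediateField ℚ MZ.Om) ∣ 21 := by
      rw [← h5]
      exact IntermediateField.finrank_dvd_of_le_right inf_le_right
    have h7 : Module.finrank ℚ (F ⊓ M : IntermediateField ℚ MZ.Om) = 1 :=
      Nat.eq_one_of_dvd_coprimes hcop hd1 hd2
    exact IntermediateField.finrank_eq_one_iff.mp h7
  · have hclF : IsAlgClosure F MZ.Om := RESQN.alg_clo F
    have hF := core2B K r hK κ F hreal (h6 F hdis)
    exact ⟨hF, fun m hm => all3 F MZ.Om hreal hF m hm⟩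

end Pool.Agent.Results.MP_aa8fd2_nt.FailsOverQ
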