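import Pool.Agent.H429.MZQ.Fin6
import Pool.Agent.H429.MZU.Fin4

/-!
# Failures of the dimension formula are inherited by the odd multiples of the dimension

(A) Over a totally real field `F` a failure in dimension `n` (for a residual representation of odd order, `p = 2`)
gives a failure in every dimension `n m`, `m` odd.
(B) So over the layers of the cyclotomic `ℤ₂`-extension of `ℚ(√5)` (and over totally real fields containing them)
the gap is unbounded in every dimension `n = 3 m`, `m` odd.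
-/

set_option autoImplicit false

namespace Pool.Agent.Results.MP_aa8fd2_nt.OddMultiples

open NumberField IsDedekindDomain Pool.Agent.H429.MZQ

theorem result :
    -- (A) inheritance
    (∀ (F Ω : Type) [Field F] [NumberField F] [Field Ω] [Algebra F Ω] [IsAlgClosure F Ω]
      (S : Set (HeightOneSpectrum (𝓞 F))) (k : Type) [Field k] [Finite k] [CharP k 2] (n N : ℕ)
      (ρbar : MZ.GFS Ω S →* GL (Fin n) k), TotR F → Bad F Ω S k n N ρbar →
      ∀ m : ℕ, Odd m → FailsIn F Ω (n * m) N) ∧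
    -- (B) the cyclotomic tower of `ℚ(√5)`
    ∃ (F₀ Ω : Type) (_ : Field F₀) (_ : NumberField F₀) (_ : Field Ω) (_ : Algebra F₀ Ω)
      (_ : IsAlgClosure F₀ Ω) (L : IntermediateField F₀ Ω) (θ : ℕ → Ω),
      (∃ s : F₀, s ^ 2 = 5 ∧ IntermediateField.adjoin ℚ {s} = ⊤) ∧ Module.finrank F₀ L = 9 ∧
      θ 0 = 0 ∧ (∀ j, θ (j + 1) ^ 2 = 2 + θ j) ∧
      (∀ (F : IntermediateField F₀ Ω) [NumberField F],
        (¬ 3 ∣ Module.finrank F₀ F → F ⊓ L = ⊥) ∧
        ∀ j : ℕ, θ j ∈ F → TotR F → F ⊓ L = ⊥ →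
          ∀ m : ℕ, Odd m → FailsIn F Ω (3 * m) (1 + 2 ^ (j + 3))) ∧
      ∀ (j : ℕ) (F : IntermediateField F₀ Ω), F = IntermediateField.adjoin F₀ {θ j} →
        ∃ _ : NumberField F, Module.finrank ℚ F = 2 ^ (j + 1) ∧ TotR F ∧
          ∀ m : ℕ, Odd m → FailsIn F Ω (3 * m) (1 + 4 * Module.finrank ℚ F) := by
  haveI : Fact (Nat.Prime 2) := ⟨Nat.prime_two⟩
  refine ⟨fun F Ω _ _ _ _ _ S k _ _ _ n N ρ hreal hbad m hm =>
    inheritAll F Ω S k n N ρ hreal hbad m hm, ?_⟩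
  have hB : ∀ (F : IntermediateField MZ.F5 MZ.Om) [NumberField F] (j : ℕ),
      Pool.Agent.H429.MZU.th j ∈ F → TotR F → F ⊓ MZ.Lf = ⊥ →
      ∀ m : ℕ, Odd m → FailsIn F MZ.Om (3 * m) (1 + 2 ^ (j + 3)) := by
    intro F _ j hj hreal hdis m hm
    have h30 : (30 : 𝓞 F) ≠ 0 := by norm_num
    obtain ⟨k, ik, iF, iC, ρ, hρ⟩ := Pool.Agent.H429.MZU.coreB Pool.Agent.H429.MZU.tower' j F hj hdis hreal
      {v | (30 : 𝓞 F) ∈ v.asIdeal} (fin438 F 30 h30) (fun v hv => hv)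
    exact inheritAll F MZ.Om _ k 3 _ ρ hreal hρ m hm
  refine ⟨MZ.F5, MZ.Om, inferInstance, inferInstance, inferInstance, inferInstance, inferInstance,
    MZ.Lf, Pool.Agent.H429.MZU.th, ?_, Pool.Agent.H429.MZU.finrank_Lf, Pool.Agent.H429.MZU.th_zero,
    Pool.Agent.H429.MZU.th_succ, fun F _ => ⟨fun h => Pool.Agent.H429.MZU.disjoint_of_not_dvd F h,
      fun j => hB F j⟩, ?_⟩
  · refine ⟨MZ294.sF, MZ294.sF_sq, ?_⟩
    rw [eq_top_iff]
    intro x _
    obtain ⟨a, b, hab⟩ := MZ.mem_F5 x.1 x.2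
    have h : x = algebraMap ℚ MZ.F5 a + algebraMap ℚ MZ.F5 b * MZ294.sF := Subtype.ext hab
    rw [h]
    exact add_mem (IntermediateField.algebraMap_mem _ _)
      (mul_mem (IntermediateField.algebraMap_mem _ _) (IntermediateField.mem_adjoin_simple_self _ _))
  · intro j F hF
    have hFm : F = Pool.Agent.H429.MZU.Fm j := hF
    subst hFm
    have : NumberField (Pool.Agent.H429.MZU.Fm j) :=
      NumberField.of_module_finite MZ.F5 (Pool.Agent.H429.MZU.Fm j)
    have h1 : Module.finrank ℚ (Pool.Agent.H429.MZU.Fm j) = 2 ^ (j + 1) := by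
      rw [← Module.finrank_mul_finrank ℚ MZ.F5 (Pool.Agent.H429.MZU.Fm j),
        Pool.Agent.H429.MZU.finrank_Fm', MZ294.finrank_F5, pow_succ, mul_comm]
    have h2 : Pool.Agent.H429.MZU.Fm j ⊓ MZ.Lf = ⊥ := by
      refine Pool.Agent.H429.MZU.disjoint_of_not_dvd (Pool.Agent.H429.MZU.Fm j) ?_
      rw [Pool.Agent.H429.MZU.finrank_Fm']
      intro h
      have := Nat.Prime.dvd_of_dvd_pow Nat.prime_three h
      omega
    refine ⟨this, h1, Pool.Agent.H429.MZU.real_Fm j, fun m hm => ?_⟩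
    have h3 : 1 + 4 * Module.finrank ℚ (Pool.Agent.H429.MZU.Fm j) = 1 + 2 ^ (j + 3) := by rw [h1]; ring
    rw [h3]
    exact hB _ j (Pool.Agent.H429.MZU.th_mem_Fm j) (Pool.Agent.H429.MZU.real_Fm j) h2 m hm

end Pool.Agent.Results.MP_aa8fd2_nt.OddMultiples
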