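import Pool.Agent.H429.MZU.Fin4

/-!
# The dimension conjecture fails over every totally real field containing `ℚ(√5)` and not meeting `L`,
by an unbounded amount, and for every set of places `S ⊇ {v ∣ 30}`

`F₀ = ℚ(√5)`, `Ω` is an algebraic closure of `F₀`, `L` is the totally real `C₃ × C₃`-extension
`F₀(c, d)` of `F₀` with `c³ - 3c + 1 = 0`, `2d³ - 6d - 1 = 0`, and `A m = F₀(θ_m)` (`θ_0 = 0`, `θ_{m+1}² = 2 + θ_m`) is
the `m`-th layer of the cyclotomic `ℤ₂`-extension of `F₀`.  A number field containing `√5` is given as an intermediate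
field `F` of `Ω/F₀`.
-/

set_option autoImplicit false

namespace Pool.Agent.Results.MP_aa8fd2_nt.UnboundedFailure

open NumberField IsDedekindDomain Pool.Agent.H429.MZU

/-- The finite set `S` of places of `F` and the representation `ρbar : G_{F,S} → GL_3(k)`, `char k = 2`, are as in the
problem, `δ(ρbar) = 1 + 9 r₂(F)`, `ρbar` has a universal deformation ring, and every universal deformation ring `R` of
`ρbar` satisfies `dim R/2R ≥ N`. -/
def IsBig (F Ω : Type) [Field F] [NumberField F] [Field Ω] [Algebra F Ω]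
    (S : Set (HeightOneSpectrum (𝓞 F))) (N : ℕ) (k : Type) [Field k] [CharP k 2]
    (ρbar : MZ.GFS Ω S →* GL (Fin 3) k)
    (w : InfinitePlace F → InfinitePlace (MZ.FSmax S : IntermediateField F Ω)) : Prop :=
  MZ.IsDatum F Ω S 2 k 3 ρbar w ∧
  MZ.delta S ρbar w = 1 + 9 * (InfinitePlace.nrComplexPlaces F : ℤ) ∧
  (∃ (R : MZ.CNL 2 k) (ρu : MZ.GFS Ω S →* GL (Fin 3) R.A), MZ.IsUniversal ρbar R ρu) ∧
  ∀ (R : MZ.CNL 2 k) (ρu : MZ.GFS Ω S →* GL (Fin 3) R.A), MZ.IsUniversal ρbar R ρu →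
    (N : WithBot ℕ∞) ≤ ringKrullDim (R.A ⧸ Ideal.span {((2 : ℕ) : R.A)})

/-- For every finite set `S` of finite places of `F` containing all places above `30` there are a finite field `k` of
characteristic 2 and `ρbar : G_{F,S} → GL_3(k)` with `IsBig F Ω S N k ρbar w`. -/
def FailsBy (F Ω : Type) [Field F] [NumberField F] [Field Ω] [Algebra F Ω] (N : ℕ) : Prop :=
  ∀ S : Set (HeightOneSpectrum (𝓞 F)), S.Finite →
    (∀ v : HeightOneSpectrum (𝓞 F), (30 : 𝓞 F) ∈ v.asIdeal → v ∈ S) →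
    ∃ (k : Type) (_ : Field k) (_ : Finite k) (_ : CharP k 2)
      (ρbar : MZ.GFS Ω S →* GL (Fin 3) k)
      (w : InfinitePlace F → InfinitePlace (MZ.FSmax S : IntermediateField F Ω)),
      IsBig F Ω S N k ρbar w

/-- `F` is totally real -/
def TotReal (F : Type) [Field F] : Prop :=
  ∀ τ : F →+* ℂ, ComplexEmbedding.IsReal τ

/-- every field `A ⊆ M ⊆ F` of 2-power degree over `F₀` is totally real -/
def RealCore {F₀ Ω : Type} [Field F₀] [Field Ω] [Algebra F₀ Ω] (A F : IntermediateField F₀ Ω) :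
    Prop :=
  ∀ M : IntermediateField F₀ Ω, A ≤ M → M ≤ F → (∃ a : ℕ, Module.finrank F₀ M = 2 ^ a) → TotReal M

/-- `F₀ = ℚ(√5)`, `L = F₀(c, d)`, `A m = F₀(θ_m)` -/
def IsBase {F₀ Ω : Type} [Field F₀] [NumberField F₀] [Field Ω] [Algebra F₀ Ω]
    (L : IntermediateField F₀ Ω) (A : ℕ → IntermediateField F₀ Ω) : Prop :=
  (∃ s : F₀, s ^ 2 = 5 ∧ IntermediateField.adjoin ℚ {s} = ⊤) ∧
  Module.finrank F₀ L = 9 ∧
  (∃ c d : Ω, c ^ 3 - 3 * c + 1 = 0 ∧ 2 * d ^ 3 - 6 * d - 1 = 0 ∧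
    L = IntermediateField.adjoin F₀ {c, d}) ∧
  ∃ θ : ℕ → Ω, θ 0 = 0 ∧ (∀ m, θ (m + 1) ^ 2 = 2 + θ m) ∧
    ∀ m, A m = IntermediateField.adjoin F₀ {θ m}

lemma isBase : IsBase MZ.Lf Fm := by
  refine ⟨?_, finrank_Lf, ⟨MZ.ze + MZ.ze⁻¹, MZ.yy ^ 3 + (MZ.yy ^ 3)⁻¹, ?_, ?_, rfl⟩,
    th, th_zero, th_succ, fun _ => rfl⟩
  · refine ⟨MZ294.sF, MZ294.sF_sq, ?_⟩
    rw [eq_top_iff]
    intro x _
    obtain ⟨a, b, hab⟩ := MZ.mem_F5 x.1 x.2
    have h : x = algebraMap ℚ MZ.F5 a + algebraMap ℚ MZ.F5 b * MZ294.sF := Subtype.ext hab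
    rw [h]
    exact add_mem (IntermediateField.algebraMap_mem _ _)
      (mul_mem (IntermediateField.algebraMap_mem _ _) (IntermediateField.mem_adjoin_simple_self _ _))
  · have h := MZ294.DOm.eN_eq
    have e : MZ294.DOm.eN = MZ.ze + MZ.ze⁻¹ := by
      change MZ.yy ^ 0 * MZ.ze ^ 1 + (MZ.yy ^ 0 * MZ.ze ^ 1)⁻¹ = _; simp
    rwa [e] at h
  · have h := MZ294.DOm.eM_eq
    have e : MZ294.DOm.eM = MZ.yy ^ 3 + (MZ.yy ^ 3)⁻¹ := by
      change MZ.yy ^ 3 * MZ.ze ^ 0 + (MZ.yy ^ 3 * MZ.ze ^ 0)⁻¹ = _; simp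
    rwa [e] at h

theorem result : ∃ (F₀ Ω : Type) (_ : Field F₀) (_ : NumberField F₀) (_ : Field Ω)
    (_ : Algebra F₀ Ω) (_ : IsAlgClosure F₀ Ω)
    (L : IntermediateField F₀ Ω) (A : ℕ → IntermediateField F₀ Ω), IsBase L A ∧
    -- the general statement; totally real fields and odd extensions of `A m` satisfy the hypotheses
    (∀ (m : ℕ) (F : IntermediateField F₀ Ω) [NumberField F], A m ≤ F → F ⊓ L = ⊥ →
      (RealCore (A m) F → FailsBy F Ω (1 + 2 ^ (m + 3))) ∧ (TotReal F → RealCore (A m) F) ∧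
      ∀ r : ℕ, Odd r → Module.finrank F₀ F = 2 ^ m * r → RealCore (A m) F) ∧
    -- all totally real fields
    (∀ (F : IntermediateField F₀ Ω) [NumberField F],
      (¬ 3 ∣ Module.finrank F₀ F → F ⊓ L = ⊥) ∧
      (TotReal F → F ⊓ L = ⊥ → FailsBy F Ω 9)) ∧
    -- the cyclotomic layers: unbounded failure
    (∀ m : ℕ, ∃ _ : NumberField (A m), Module.finrank ℚ (A m) = 2 ^ (m + 1) ∧
      TotReal (A m) ∧ A m ⊓ L = ⊥ ∧ FailsBy (A m) Ω (1 + 4 * Module.finrank ℚ (A m))) := by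
  have hA : ∀ (m : ℕ) (F : IntermediateField MZ.F5 MZ.Om) [NumberField F], Fm m ≤ F →
      F ⊓ MZ.Lf = ⊥ → RealCond m F → FailsBy F MZ.Om (1 + 2 ^ (m + 3)) :=
    fun m F _ h1 h2 h3 S hS h30 => core tower' m F (h1 (th_mem_Fm m)) h2 h3 S hS h30
  have h0 : ∀ F : IntermediateField MZ.F5 MZ.Om, Fm 0 ≤ F := by
    intro F
    rw [Fm, IntermediateField.adjoin_simple_le_iff, th_zero]
    exact F.zero_mem
  refine ⟨MZ.F5, MZ.Om, inferInstance, inferInstance, inferInstance, inferInstance, inferInstance,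
    MZ.Lf, Fm, isBase, fun m F _ h1 h2 => ⟨fun h3 => hA m F h1 h2 h3,
      fun h3 => realCond_of_real m F h3, fun r h3 h4 => realCond_of_odd m r F h3 h4⟩,
    fun F _ => ⟨fun h => disjoint_of_not_dvd F h, fun hr hd => ?_⟩, fun m => ?_⟩
  · exact hA 0 F (h0 F) hd (realCond_of_real 0 F hr)
  · have : NumberField (Fm m) := NumberField.of_module_finite MZ.F5 (Fm m)
    have h1 : Module.finrank ℚ (Fm m) = 2 ^ (m + 1) := by
      rw [← Module.finrank_mul_finrank ℚ MZ.F5 (Fm m), finrank_Fm', MZ294.finrank_F5, pow_succ,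
        mul_comm]
    have h2 : Fm m ⊓ MZ.Lf = ⊥ := by
      refine disjoint_of_not_dvd (Fm m) ?_
      rw [finrank_Fm']
      intro h
      have := Nat.Prime.dvd_of_dvd_pow Nat.prime_three h
      omega
    refine ⟨this, h1, real_Fm m, h2, ?_⟩
    have h3 : 1 + 4 * Module.finrank ℚ (Fm m) = 1 + 2 ^ (m + 3) := by rw [h1]; ring
    rw [h3]
    exact hA m (Fm m) le_rfl h2 (realCond_of_real m (Fm m) (real_Fm m))

end Pool.Agent.Results.MP_aa8fd2_nt.UnboundedFailure
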